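import Pool.Agent.Helper63.PL.Goals

set_option autoImplicit false

/-!
# Packet UP (MP_32e3a9_an)
-/

open MeasureTheory Set Metric
open scoped ENNReal ContDiff

namespace Pool.Agent.Helper26.PL

open Pool.Agent.Helper63.PL

/-- A smooth profile. -/
theorem exists_profile (w θ : ℝ) (hw : 0 < w) (hθ : 0 < θ) (hθ1 : θ < 1) :
    ∃ ψ : ℝ → ℝ, ContDiff ℝ ∞ ψ ∧ (∀ r r', |ψ r - ψ r'| ≤ |r - r'|) ∧
      ∃ s v : ℝ, 0 < s ∧ s < v ∧ v < w ∧ (∀ r, r ≤ s → ψ r = ψ 0 ∧ θ * w ≤ ψ r) ∧
        ∀ r, v ≤ r → ψ r = 0 := by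
  have h1 : 0 < θ * w / 2 := by positivity
  have h2 : θ * w / 2 < (1 + θ) * w / 4 := by nlinarith
  let χ : ContDiffBump (w / 2 : ℝ) := ⟨θ * w / 2, (1 + θ) * w / 4, h1, h2⟩
  have hc : Continuous χ := χ.continuous
  have hint : ∀ a b : ℝ, IntervalIntegrable χ volume a b := fun a b => hc.intervalIntegrable a b
  have hz : ∀ t, t ≤ w / 2 - (1 + θ) * w / 4 → χ t = 0 := by
    intro t ht
    refine χ.zero_of_le_dist ?_
    rw [Real.dist_eq, abs_sub_comm]
    exact (by linarith : (1 + θ) * w / 4 ≤ w / 2 - t).trans (le_abs_self _)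
  have hz' : ∀ t, w / 2 + (1 + θ) * w / 4 ≤ t → χ t = 0 := by
    intro t ht
    refine χ.zero_of_le_dist ?_
    rw [Real.dist_eq]
    exact (by linarith : (1 + θ) * w / 4 ≤ t - w / 2).trans (le_abs_self _)
  have hdiff : ∀ r r', (∫ t in r..w, χ t) - (∫ t in r'..w, χ t) = ∫ t in r..r', χ t := by
    intro r r'
    rw [← intervalIntegral.integral_add_adjacent_intervals (hint r r') (hint r' w)]
    ring
  refine ⟨fun r => ∫ t in r..w, χ t, ?_, ?_, w / 2 - (1 + θ) * w / 4, w / 2 + (1 + θ) * w / 4,
    by nlinarith, by nlinarith, by nlinarith, ?_, ?_⟩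
  · have hd : ∀ r, HasDerivAt (fun r => ∫ t in r..w, χ t) (-χ r) r := by
      intro r
      have : (fun r => ∫ t in r..w, χ t) = fun r => -∫ t in w..r, χ t := by
        funext r
        exact intervalIntegral.integral_symm w r
      rw [this]
      exact (hc.integral_hasStrictDerivAt w r).hasDerivAt.neg
    rw [contDiff_infty_iff_deriv]
    refine ⟨fun r => (hd r).differentiableAt, ?_⟩
    have : deriv (fun r => ∫ t in r..w, χ t) = fun r => -χ r := funext fun r => (hd r).deriv
    rw [this]
    exact χ.contDiff.neg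
  · intro r r'
    rw [hdiff]
    have := intervalIntegral.norm_integral_le_of_norm_le_const (a := r) (b := r') (C := 1)
      (f := χ) (fun t _ => by
        rw [Real.norm_eq_abs, abs_of_nonneg χ.nonneg]
        exact χ.le_one)
    rw [one_mul, Real.norm_eq_abs, abs_sub_comm] at this
    exact this
  · intro r hr
    have e : (∫ t in r..w, χ t) = ∫ t in (0:ℝ)..w, χ t := by
      have := hdiff r 0
      have h0 : ∫ t in r..0, χ t = 0 := by
        have : ∫ t in r..0, χ t = ∫ t in r..0, (0:ℝ) := by
          refine intervalIntegral.integral_congr fun t ht => ?_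
          refine hz t ?_
          rcases le_total r 0 with h | h
          · rw [uIcc_of_le h] at ht
            exact ht.2.trans (by nlinarith)
          · rw [uIcc_of_ge h] at ht
            exact ht.2.trans hr
        rw [this]
        simp
      linarith
    refine ⟨e, ?_⟩
    show θ * w ≤ ∫ t in r..w, χ t
    rw [e]
    have h3 : (0:ℝ) ≤ w / 2 - θ * w / 2 := by nlinarith
    have h4 : w / 2 - θ * w / 2 ≤ w / 2 + θ * w / 2 := by linarith
    have h5 : w / 2 + θ * w / 2 ≤ w := by nlinarith
    rw [← intervalIntegral.integral_add_adjacent_intervals (hint 0 (w / 2 - θ * w / 2))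
      (hint _ w), ← intervalIntegral.integral_add_adjacent_intervals
      (hint (w / 2 - θ * w / 2) (w / 2 + θ * w / 2)) (hint _ w)]
    have h6 : 0 ≤ ∫ t in (0:ℝ)..(w / 2 - θ * w / 2), χ t :=
      intervalIntegral.integral_nonneg h3 fun t _ => χ.nonneg
    have h7 : 0 ≤ ∫ t in (w / 2 + θ * w / 2)..w, χ t :=
      intervalIntegral.integral_nonneg h5 fun t _ => χ.nonneg
    have h8 : ∫ t in (w / 2 - θ * w / 2)..(w / 2 + θ * w / 2), χ t = θ * w := by
      have : ∫ t in (w / 2 - θ * w / 2)..(w / 2 + θ * w / 2), χ t =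
          ∫ t in (w / 2 - θ * w / 2)..(w / 2 + θ * w / 2), (1:ℝ) := by
        refine intervalIntegral.integral_congr fun t ht => ?_
        rw [uIcc_of_le h4] at ht
        refine χ.one_of_mem_closedBall ?_
        rw [mem_closedBall, Real.dist_eq, abs_le]
        constructor
        · have := ht.1
          show -(θ * w / 2) ≤ t - w / 2
          linarith
        · have := ht.2
          show t - w / 2 ≤ θ * w / 2
          linarith
      rw [this, intervalIntegral.integral_const, smul_eq_mul, mul_one]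
      ring
    linarith
  · intro r hr
    show ∫ t in r..w, χ t = 0
    have : ∫ t in r..w, χ t = ∫ t in r..w, (0:ℝ) := by
      refine intervalIntegral.integral_congr fun t ht => ?_
      refine hz' t ?_
      rcases le_total r w with h | h
      · rw [uIcc_of_le h] at ht
        exact hr.trans ht.1
      · rw [uIcc_of_ge h] at ht
        exact (by nlinarith : w / 2 + (1 + θ) * w / 4 ≤ w).trans ht.1
    rw [this]
    simp

/-- The cone-like test function. -/
theorem exists_test {N : ℕ} (x₀ : E N) (w θ : ℝ) (hw : 0 < w) (hθ : 0 < θ) (hθ1 : θ < 1) :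
    ∃ φ : E N → ℝ, ContDiff ℝ ∞ φ ∧ HasCompactSupport φ ∧ tsupport φ ⊆ ball x₀ w ∧
      LipschitzWith 1 φ ∧ ∃ s, 0 < s ∧ ∀ x ∈ ball x₀ s, θ * w ≤ φ x := by
  obtain ⟨ψ, hψ, hlip, s, v, hs, hsv, hvw, h1, h2⟩ := exists_profile w θ hw hθ hθ1
  have hsupp : tsupport (fun x : E N => ψ ‖x - x₀‖) ⊆ closedBall x₀ v := by
    refine closure_minimal ?_ isClosed_closedBall
    intro x hx
    rw [mem_closedBall, dist_eq_norm]
    by_contra h
    exact hx (h2 _ (not_le.1 h).le)
  refine ⟨fun x => ψ ‖x - x₀‖, ?_, ?_, ?_, ?_, s, hs, ?_⟩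
  · rw [contDiff_iff_contDiffAt]
    intro x
    by_cases hx : x = x₀
    · subst hx
      have : (fun y : E N => ψ ‖y - x‖) =ᶠ[nhds x] fun _ => ψ 0 := by
        filter_upwards [ball_mem_nhds x hs] with y hy
        rw [mem_ball, dist_eq_norm] at hy
        exact (h1 _ hy.le).1
      exact contDiffAt_const.congr_of_eventuallyEq this
    · refine hψ.contDiffAt.comp x ?_
      refine ContDiffAt.comp x (contDiffAt_norm ℝ (sub_ne_zero.2 hx)) ?_
      exact contDiffAt_id.sub contDiffAt_const
  · exact HasCompactSupport.of_support_subset_isCompact (isCompact_closedBall x₀ v)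
      (subset_closure.trans hsupp)
  · exact hsupp.trans (closedBall_subset_ball hvw)
  · refine LipschitzWith.of_dist_le_mul fun x y => ?_
    rw [NNReal.coe_one, one_mul, Real.dist_eq]
    refine (hlip _ _).trans ?_
    rw [dist_eq_norm]
    have := abs_norm_sub_norm_le (x - x₀) (y - x₀)
    rwa [sub_sub_sub_cancel_right] at this
  · intro x hx
    rw [mem_ball, dist_eq_norm] at hx
    exact (h1 _ hx.le).2

theorem neg_mem_testPairs {N : ℕ} {p : ℝ≥0∞} {D : Set (E N)} {q : Pair N p}
    (h : q ∈ TestPairs N p D) : -q ∈ TestPairs N p D := by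
  obtain ⟨φ, h1, h2, h3, h4, h5⟩ := h
  refine ⟨fun x => - φ x, h1.neg, ?_, ?_, ?_, ?_⟩
  · exact h2.neg
  · have : tsupport (fun x => - φ x) = tsupport φ := by
      unfold tsupport
      congr 1
      ext x
      simp
    rw [this]
    exact h3
  · filter_upwards [h4, Lp.coeFn_neg q.1] with x hx hx2
    rw [Prod.fst_neg, hx2, Pi.neg_apply, hx]
  · filter_upwards [h5, Lp.coeFn_neg q.2] with x hx hx2
    rw [Prod.snd_neg, hx2, Pi.neg_apply, hx]
    unfold gradient
    rw [fderiv_fun_neg, map_neg]

theorem up : UpStmt := by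
  intro N hN D x₀ w θ hw hθ hθ1 hD
  obtain ⟨φ, hφ, hcs, hts, hlip, s, hs, hge⟩ := exists_test x₀ w θ hw hθ hθ1
  set V₁ : ℝ := (volume (ball x₀ w)).toReal with hV1
  set V₂ : ℝ := (volume (ball x₀ s)).toReal with hV2
  have hV2pos : 0 < V₂ := by
    refine ENNReal.toReal_pos (measure_ball_pos volume x₀ hs).ne' measure_ball_lt_top.ne
  refine ⟨V₁ / V₂, ?_⟩
  intro p hp1 hp
  have hp0 : p ≠ 0 := by
    intro h
    have := hp1.out
    rw [h] at this
    exact absurd this (by simp)
  have hP : 0 < p.toReal := ENNReal.toReal_pos hp0 hp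
  -- the gradient
  have hgc : Continuous (gradient φ) := by
    have : Continuous (fderiv ℝ φ) := hφ.continuous_fderiv (by simp)
    exact (InnerProductSpace.toDual ℝ (E N)).symm.continuous.comp this
  have hgn : ∀ x, ‖gradient φ x‖ ≤ 1 := by
    intro x
    unfold gradient
    rw [LinearIsometryEquiv.norm_map]
    have := norm_fderiv_le_of_lipschitz ℝ hlip (x₀ := x)
    simpa using this
  have hgz : ∀ x, x ∉ ball x₀ w → gradient φ x = 0 := by
    intro x hx
    unfold gradient
    have : fderiv ℝ φ x = 0 := by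
      by_contra h
      exact hx (hts (support_fderiv_subset ℝ h))
    rw [this, map_zero]
  have hgcs : HasCompactSupport (gradient φ) := by
    refine HasCompactSupport.of_support_subset_isCompact (isCompact_closedBall x₀ w) ?_
    intro x hx
    by_contra h
    exact hx (hgz x fun h' => h (ball_subset_closedBall h'))
  have hφm : MemLp φ p (volume : Measure (E N)) := hφ.continuous.memLp_of_hasCompactSupport hcs
  have hgm : MemLp (gradient φ) p (volume : Measure (E N)) := hgc.memLp_of_hasCompactSupport hgcs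
  set u : Lp ℝ p (volume : Measure (E N)) := hφm.toLp φ with hu
  set g : Lp (E N) p (volume : Measure (E N)) := hgm.toLp (gradient φ) with hg
  -- upper bound
  have hgb : ‖g‖ ^ p.toReal ≤ V₁ := by
    rw [hg, Lp.norm_toLp, eLpNorm_eq_lintegral_rpow_enorm_toReal hp0 hp, ← ENNReal.toReal_rpow,
      ENNReal.toReal_rpow, ENNReal.toReal_rpow, ← ENNReal.rpow_mul, one_div,
      inv_mul_cancel₀ hP.ne', ENNReal.rpow_one, hV1]
    refine ENNReal.toReal_mono measure_ball_lt_top.ne ?_
    calc ∫⁻ x, ‖gradient φ x‖ₑ ^ p.toReal ≤ ∫⁻ x, (ball x₀ w).indicator 1 x := by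
          refine lintegral_mono fun x => ?_
          by_cases hx : x ∈ ball x₀ w
          · rw [indicator_of_mem hx, Pi.one_apply]
            refine ENNReal.rpow_le_one ?_ hP.le
            rw [← ofReal_norm, ← ENNReal.ofReal_one]
            exact ENNReal.ofReal_le_ofReal (hgn x)
          · rw [indicator_of_notMem hx, hgz x hx]
            simp [hP]
      _ = volume (ball x₀ w) := by
          rw [lintegral_indicator_one measurableSet_ball]
  have hub : (θ * w) ^ p.toReal * V₂ ≤ ‖u‖ ^ p.toReal := by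
    have hfin : eLpNorm φ p (volume : Measure (E N)) < ⊤ := hφm.2
    rw [hu, Lp.norm_toLp]
    rw [ENNReal.toReal_rpow]
    rw [← ENNReal.toReal_ofReal (by positivity : 0 ≤ (θ * w) ^ p.toReal), hV2,
      ← ENNReal.toReal_mul]
    refine ENNReal.toReal_mono ?_ ?_
    · exact (ENNReal.rpow_lt_top_of_nonneg hP.le hfin.ne).ne
    rw [eLpNorm_eq_lintegral_rpow_enorm_toReal hp0 hp, ← ENNReal.rpow_mul, one_div,
      inv_mul_cancel₀ hP.ne', ENNReal.rpow_one]
    calc ENNReal.ofReal ((θ * w) ^ p.toReal) * volume (ball x₀ s)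
        = ∫⁻ x, (ball x₀ s).indicator (fun _ => ENNReal.ofReal ((θ * w) ^ p.toReal)) x := by
          rw [lintegral_indicator_const measurableSet_ball]
      _ ≤ ∫⁻ x, ‖φ x‖ₑ ^ p.toReal := by
          refine lintegral_mono fun x => ?_
          by_cases hx : x ∈ ball x₀ s
          · rw [indicator_of_mem hx]
            rw [← ENNReal.ofReal_rpow_of_pos (by positivity)]
            refine ENNReal.rpow_le_rpow ?_ hP.le
            rw [← ofReal_norm]
            exact ENNReal.ofReal_le_ofReal ((hge x hx).trans (le_abs_self _))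
          · rw [indicator_of_notMem hx]
            exact zero_le
  have hupos : 0 < ‖u‖ := by
    by_contra h
    have h0 : ‖u‖ = 0 := le_antisymm (not_lt.1 h) (norm_nonneg _)
    rw [h0, Real.zero_rpow hP.ne'] at hub
    have : 0 < (θ * w) ^ p.toReal * V₂ := by positivity
    linarith
  set c : ℝ := ‖u‖⁻¹ with hc
  have hcpos : 0 < c := inv_pos.2 hupos
  set q : Pair N p := (c • u, c • g) with hq
  have hqT : q ∈ TestPairs N p D := by
    refine ⟨fun x => c * φ x, contDiff_const.mul hφ, ?_, ?_, ?_, ?_⟩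
    · exact hcs.mul_left
    · refine (tsupport_mul_subset_right).trans (hts.trans hD)
    · have e1 := Lp.coeFn_smul c u
      have e2 := hφm.coeFn_toLp
      filter_upwards [e1, e2] with x h1 h2
      rw [hq]
      show (c • u : Lp ℝ p volume) x = _
      rw [h1, Pi.smul_apply, smul_eq_mul, hu, h2]
    · have e1 := Lp.coeFn_smul c g
      have e2 := hgm.coeFn_toLp
      filter_upwards [e1, e2] with x h1 h2
      rw [hq]
      show (c • g : Lp (E N) p volume) x = _
      rw [h1, Pi.smul_apply, hg, h2]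
      unfold gradient
      rw [fderiv_const_mul (hφ.differentiable (by simp) x), map_smul]
  have hq1 : ‖q.1‖ = 1 := by
    rw [hq]
    show ‖c • u‖ = 1
    rw [norm_smul, Real.norm_of_nonneg hcpos.le, hc, inv_mul_cancel₀ hupos.ne']
  have hqe : energy q ≤ ENNReal.ofReal (V₁ / V₂ * (1 / (θ * w)) ^ p.toReal) := by
    unfold energy
    refine ENNReal.ofReal_le_ofReal ?_
    rw [hq]
    show ‖c • g‖ ^ p.toReal ≤ _
    rw [norm_smul, Real.norm_of_nonneg hcpos.le, hc,
      Real.mul_rpow (inv_nonneg.2 hupos.le) (norm_nonneg _), Real.inv_rpow hupos.le,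
      Real.div_rpow zero_le_one (by positivity), Real.one_rpow]
    have h1 : (‖u‖ ^ p.toReal)⁻¹ ≤ ((θ * w) ^ p.toReal * V₂)⁻¹ :=
      inv_anti₀ (by positivity) hub
    calc (‖u‖ ^ p.toReal)⁻¹ * ‖g‖ ^ p.toReal ≤ ((θ * w) ^ p.toReal * V₂)⁻¹ * V₁ :=
          mul_le_mul h1 hgb (by positivity) (by positivity)
      _ = V₁ / V₂ * (1 / (θ * w) ^ p.toReal) := by
          field_simp
  -- the set
  have hmem : ∀ q' ∈ ({q, -q} : Set (Pair N p)), q' ∈ Sph N p D := by
    intro q' hq'
    rcases hq' with rfl | hq'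
    · exact ⟨subset_closure hqT, hq1⟩
    · rw [mem_singleton_iff] at hq'
      rw [hq']
      exact ⟨subset_closure (neg_mem_testPairs hqT), by rw [Prod.fst_neg, norm_neg, hq1]⟩
  have hG : ({q, -q} : Set (Pair N p)) ∈ Gam N p D 1 := by
    refine ⟨hmem, (Set.toFinite _).isCompact, ?_, ?_⟩
    · intro q' hq'
      rcases hq' with rfl | hq'
      · right
        rfl
      · rw [mem_singleton_iff] at hq'
        left
        rw [hq', neg_neg]
    · intro j hj
      have : j = 0 := by omega
      subst this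
      rintro ⟨f, _, _, h3⟩
      have := h3 q (by left; rfl)
      have h4 : f q = 0 := Subsingleton.elim _ _
      rw [h4, norm_zero] at this
      exact zero_ne_one this
  have hneg : energy (-q) = energy q := by
    unfold energy
    rw [Prod.snd_neg, norm_neg]
  calc lam N p D 1 ≤ ⨆ q' ∈ ({q, -q} : Set (Pair N p)), energy q' := iInf₂_le _ hG
    _ ≤ energy q := by
        refine iSup₂_le fun q' hq' => ?_
        rcases hq' with rfl | hq'
        · exact le_rfl
        · rw [mem_singleton_iff] at hq'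
          rw [hq', hneg]
    _ ≤ _ := hqe

end Pool.Agent.Helper26.PL
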